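import Pool.Agent.N89.HA.Eng
import Pool.Agent.N89.HG.Asm2

/-! Project HA (helper89): the local sets. -/

set_option autoImplicit false

namespace Pool.Agent.N89.HA

open MvPolynomial NumberField Pool.Agent.H901R3.MS Pool.Agent.W659 Pool.Agent.W659.SA
  Pool.Agent.N89.GS Pool.Agent.N89.BD Pool.Agent.N89.HX Pool.Agent.N89.HL WeierstrassCurve
open Pool.Agent.N89.HG hiding ev

/-- the vectors `c` such that for some `S`-integral point of `G` over `L` the Galois group of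
`h(φ_c(P); X)` over `L` is not `𝒢`; `h` is defined over `L`, the maps `φ_c` over `K` -/
def BadHA {K L : Type} [Field K] [NumberField K] [Field L] [NumberField L] [Algebra K L]
    {N r s n e : ℕ} (ω : Module.Basis (Fin N) ℤ (𝓞 K)) (a b : Fin r → ℤ)
    (h : Fin (e + 1) → MvPolynomial (Fin (n + 1)) (𝓞 L)) (𝒢 : Subgroup (Equiv.Perm (Fin e)))
    (Φ : Fin (n + 1) → Pol (𝓞 K) r s 0)
    {ι : Fin (n + 1) → Type} [∀ i, Fintype (ι i)] (Λ : (i : Fin (n + 1)) → ι i → Pol (𝓞 K) r s 0)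
    (S : ℕ) : Set ((Σ i, ι i) × Fin N → ℤ) :=
  {c | ∃ (V : Fin r → Fin 3 → L) (u : Fin s → Lˣ), (∀ i, FD.OnE (a i) (b i) (V i)) ∧
    (∀ l, u l ∈ SUn L S) ∧ ¬ GalIs (Pool.Agent.N89.HG.ev (algebraMap (𝓞 L) L) h
      (zc (toL K L) Φ Λ V (fun l => ((u l : Lˣ) : L)) (vecJ ω c))) 𝒢}

/-- the vectors `c` such that for no good place the Frobenius acts on the roots like `σ` -/
def BadHTA {K L : Type} [Field K] [NumberField K] [Field L] [NumberField L] [Algebra K L]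
    {N r s n e : ℕ} (ω : Module.Basis (Fin N) ℤ (𝓞 K)) (a b : Fin r → ℤ)
    {h : Fin (e + 1) → MvPolynomial (Fin (n + 1)) (𝓞 L)} {𝒢 : Subgroup (Equiv.Perm (Fin e))}
    [Fintype 𝒢] (R : RG h 𝒢) (Φ : Fin (n + 1) → Pol (𝓞 K) r s 0)
    {ι : Fin (n + 1) → Type} [∀ i, Fintype (ι i)] (Λ : (i : Fin (n + 1)) → ι i → Pol (𝓞 K) r s 0)
    (p₁ : ℕ) (σ : Equiv.Perm (Fin e))
    (P : ∀ i, Pt (a i : L) (b i : L)) (u : Fin s → Lˣ) : Set ((Σ i, ι i) × Fin N → ℤ) :=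
  {c | ∀ p : ℕ, p.Prime → p₁ ≤ p → 12 ∣ p + 1 → ∀ (k : Type) [Field k] [Fintype k],
    (Fintype.card k = p ∨ Fintype.card k = p ^ 2) → ∀ φ : 𝓞 L →+* k,
    Function.Surjective φ → ∀ w : Place L k,
    (∀ x : 𝓞 L, (x : L) ∈ w.A ∧ w.r (x : L) = φ x) →
    ∀ red : (∀ i, Pt (a i : L) (b i : L) → Pt (a i : k) (b i : k)),
    (∀ i, IsRed w (a i) (b i) (red i)) →
    ∀ (Ω : Type) [Field Ω] [IsAlgClosed Ω] [Algebra k Ω] [Algebra.IsAlgebraic k Ω],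
      ¬ HasTypeG Ω φ R (zc (φ.comp (algebraMap (𝓞 K) (𝓞 L))) Φ Λ (fun i => rep (red i (P i)))
        (fun l => w.r (u l : L)) (vecJ ω c)) σ}

/-- the local sets exist -/
theorem locL_ha {K L : Type} [Field K] [NumberField K] [Field L] [NumberField L] [Algebra K L]
    {N r s n e : ℕ}
    (ω : Module.Basis (Fin N) ℤ (𝓞 K)) (a b : Fin r → ℤ)
    {h : Fin (e + 1) → MvPolynomial (Fin (n + 1)) (𝓞 L)} {𝒢 : Subgroup (Equiv.Perm (Fin e))}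
    [Fintype 𝒢] (R : RG h 𝒢) (Φ : Fin (n + 1) → Pol (𝓞 K) r s 0)
    {ι : Fin (n + 1) → Type} [∀ i, Fintype (ι i)] (Λ : (i : Fin (n + 1)) → ι i → Pol (𝓞 K) r s 0)
    (Γ : Subgroup Lˣ) (p₁ : ℕ) (σ : Equiv.Perm (Fin e))
    {p : ℕ} (hpp : p.Prime) (hp : p₁ ≤ p) (h12 : 12 ∣ p + 1)
    {k : Type} [Field k] [Fintype k] (hcard : Fintype.card k = p ∨ Fintype.card k = p ^ 2)
    {φ : 𝓞 L →+* k} (hφ : Function.Surjective φ)
    {w : Place L k} (hw : ∀ x : 𝓞 L, (x : L) ∈ w.A ∧ w.r (x : L) = φ x)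
    {red : ∀ i, Pt (a i : L) (b i : L) → Pt (a i : k) (b i : k)}
    (hred : ∀ i, IsRed w (a i) (b i) (red i))
    (Ω : Type) [Field Ω] [IsAlgClosed Ω] [Algebra k Ω] [Algebra.IsAlgebraic k Ω]
    (hloc : ∀ (x : ∀ i, Pt (a i : k) (b i : k)) (y : Fin s → k), (∀ l, y l ≠ 0) →
      Fintype.card k ^ Fintype.card (Σ i, ι i) ≤ 2 * Fintype.card 𝒢 *
      {t : (Σ i, ι i) → k | HasTypeG Ω φ R (zf (F := k) (φ.comp (algebraMap (𝓞 K) (𝓞 L))) Φ Λ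
        (fun i => rep (x i)) y t) σ}.ncard) :
    LocL K L a b Γ (Σ i, ι i) ω (1 / ((2 * Fintype.card 𝒢 : ℕ) : ℝ)) (BadHTA ω a b R Φ Λ p₁ σ)
      k φ w red k (φ.comp (algebraMap (𝓞 K) (𝓞 L))) := by
  classical
  refine ⟨fun x y => {t | ¬ HasTypeG Ω φ R (zf (F := k) (φ.comp (algebraMap (𝓞 K) (𝓞 L))) Φ Λ
    (fun i => rep (x i)) y t) σ}, ?_, ?_⟩
  · intro x y hy
    have h1 := compl_bound {t : (Σ i, ι i) → k | HasTypeG Ω φ R (zf (F := k)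
      (φ.comp (algebraMap (𝓞 K) (𝓞 L))) Φ Λ
      (fun i => rep (x i)) y t) σ} (2 * Fintype.card 𝒢)
      (Fintype.card k ^ Fintype.card (Σ i, ι i)) (by
        have : 0 < Fintype.card 𝒢 := Fintype.card_pos
        omega) (by rw [Nat.card_eq_fintype_card, Fintype.card_fun]) (hloc x y hy)
    push_cast at h1 ⊢
    exact h1
  · intro P u _ _ c hc
    have h1 := hc p hpp hp h12 k hcard φ hφ w hw red hred Ω
    rw [zc_eq_zf] at h1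
    exact h1

theorem locL_ha_all (hTRG : S_TRG) (hFCHG : S_FCHG) (hLIN1 : S_LIN1) (hTSA : S_TSA)
    (K L : Type) [Field K] [NumberField K] [Field L] [NumberField L] [Algebra K L]
    (r s n e : ℕ) (a b : Fin r → ℤ)
    {h : Fin (e + 1) → MvPolynomial (Fin (n + 1)) (𝓞 L)} {𝒢 : Subgroup (Equiv.Perm (Fin e))}
    [Fintype 𝒢] (R : RG h 𝒢) (D : MvPolynomial (Fin (e + 1)) ℤ) (hD : IsDisc D)
    (σ₁ : L →+* ℂ) (hC : CndG (toC σ₁) R D) (σ₀ : K →+* ℂ) (Φ : Fin (n + 1) → Pol (𝓞 K) r s 0)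
    (ι : Fin (n + 1) → Type) [∀ i, Fintype (ι i)] (Λ : (i : Fin (n + 1)) → ι i → Pol (𝓞 K) r s 0)
    (hbp : ∀ i (V : Fin r → Fin 3 → ℂ) (u : Fin s → ℂ), OnB a b V u →
      ∃ x, vl (toC σ₀) (Λ i x) V u Fin.elim0 ≠ 0) (Γ : Subgroup Lˣ) (P₀ : ℕ) :
    ∃ p₁ : ℕ, P₀ ≤ p₁ ∧ R.m < p₁ ∧ ∀ (N : ℕ) (ω : Module.Basis (Fin N) ℤ (𝓞 K)), ∀ σ ∈ 𝒢,
      ∀ p : ℕ, p.Prime → p₁ ≤ p → 12 ∣ p + 1 → ∀ (k : Type) [Field k] [Fintype k],
          (Fintype.card k = p ∨ Fintype.card k = p ^ 2) → ∀ φ : 𝓞 L →+* k,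
          Function.Surjective (φ.comp (algebraMap (𝓞 K) (𝓞 L))) → ∀ w : Place L k,
          (∀ x : 𝓞 L, (x : L) ∈ w.A ∧ w.r (x : L) = φ x) →
          ∀ red : (∀ i, Pt (a i : L) (b i : L) → Pt (a i : k) (b i : k)),
          (∀ i, IsRed w (a i) (b i) (red i)) →
          LocL K L a b Γ (Σ i, ι i) ω (1 / ((2 * Fintype.card 𝒢 : ℕ) : ℝ))
            (BadHTA ω a b R Φ Λ p₁ σ) k φ w red k (φ.comp (algebraMap (𝓞 K) (𝓞 L))) := by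
  obtain ⟨y, v, ω₀, hC1, hC2⟩ := hC
  obtain ⟨p₂, hp₂⟩ := hTRG L (n + 1) e h 𝒢 R D (toC σ₁) y v ω₀ hC1 hC2
  obtain ⟨q₀, hq₀⟩ := hFCHG (𝓞 L) (n + 1) e h 𝒢 R D hD
  obtain ⟨p₃, hp₃⟩ := trans1 hTSA K a b Λ σ₀ hbp
  refine ⟨P₀ + p₂ + q₀ + p₃ + R.m + 1, by omega, by omega, ?_⟩
  intro N ω σ hσ p hpp hp h12 k _ _ hcard φ hφ' w hw red hred
  have hφ : Function.Surjective φ := by
    intro y
    obtain ⟨x, hx⟩ := hφ' y
    exact ⟨_, hx⟩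
  have hchk : CharP k p := charP_of_card hpp hcard
  have hgen : ∀ (Ω : Type) [Field Ω] [IsAlgClosed Ω] [Algebra k Ω] [Algebra.IsAlgebraic k Ω],
      LocL K L a b Γ (Σ i, ι i) ω (1 / ((2 * Fintype.card 𝒢 : ℕ) : ℝ))
            (BadHTA ω a b R Φ Λ (P₀ + p₂ + q₀ + p₃ + R.m + 1) σ) k φ w red k
            (φ.comp (algebraMap (𝓞 K) (𝓞 L))) := by
    intro Ω _ _ _ _
    have hch : CharP Ω p := charP_of_injective_algebraMap (algebraMap k Ω).injective p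
    have hr : q₀ ≤ ringChar k := by
      rw [ringChar.eq k p]
      omega
    have h1 := hq₀ k Ω φ hr (hp₂ p hpp (by omega) Ω ((algebraMap k Ω).comp φ)) σ hσ
    refine locL_ha ω a b R Φ Λ Γ _ σ hpp hp h12 hcard hφ hw hred Ω (fun x y hy => ?_)
    exact cnt_zf (F := k) (φ.comp (algebraMap (𝓞 K) (𝓞 L))) Φ Λ (fun i => rep (x i)) y 1
      (by rw [pow_one])
      (fun i z => one_cnt hLIN1 rfl _ z (hp₃ p hpp (by omega) k
        (φ.comp (algebraMap (𝓞 K) (𝓞 L))) i (fun i => rep (x i)) y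
        ⟨fun i => FD.onE_rep _, hy⟩)) {z | HasTypeG Ω φ R z σ} _ h1
  exact hgen (AlgebraicClosure k)

end Pool.Agent.N89.HA
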