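import Pool.Agent.W580.FK.HOM

/-! Project HA (helper89): places of `L` of the same degree as the places below of `K`, above the
primes with a place of degree one of a certain real number field. -/

set_option autoImplicit false

namespace Pool.Agent.N89.HA

open NumberField

/-- a prime `p` which is good for the sieve: a place of degree at most two of `L` with the same
residue field as the place of `K` below -/
def GoodKL (K L : Type) [Field K] [NumberField K] [Field L] [NumberField L] [Algebra K L] (p : ℕ) :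
    Prop :=
  ∃ (k : Type) (_ : Field k) (_ : Fintype k), (Fintype.card k = p ∨ Fintype.card k = p ^ 2) ∧
    ∃ φ : 𝓞 L →+* k, Function.Surjective (φ.comp (algebraMap (𝓞 K) (𝓞 L)))

/-- some archimedean place of `L` has the same completion as the place of `K` below -/
def Cmp (K L : Type) [Field K] [Field L] [Algebra K L] : Prop :=
  ∃ s : L →+* ℂ, (∀ x : L, (s x).im = 0) ∨ ∃ x : K, (s (algebraMap K L x)).im ≠ 0

theorem nonzero_mod {M : Type} [Field M] [NumberField M] (β : 𝓞 M) (hβ : β ≠ 0) :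
    ∃ q₀ : ℕ, ∀ p : ℕ, q₀ ≤ p → p.Prime → ∀ ψ : 𝓞 M →+* ZMod p, ψ β ≠ 0 := by
  refine ⟨Ideal.absNorm (Ideal.span {β}) + 1, fun p hp hpp ψ h => ?_⟩
  have h1 := Ideal.absNorm_mem (Ideal.span {β})
  rw [Ideal.mem_span_singleton] at h1
  obtain ⟨t, ht⟩ := h1
  have h2 := congrArg ψ ht
  rw [map_mul, h, zero_mul, map_natCast, ZMod.natCast_eq_zero_iff] at h2
  have h3 : Ideal.absNorm (Ideal.span {β}) ≠ 0 := by
    rw [Ne, Ideal.absNorm_eq_zero_iff, Ideal.span_singleton_eq_bot]
    exact hβ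
  have h4 := Nat.le_of_dvd (Nat.pos_of_ne_zero h3) h2
  omega

theorem hom2 (K L : Type) [Field K] [NumberField K] [Field L] [NumberField L] [Algebra K L]
    (hc : Cmp K L) :
    ∃ (M : Type) (_ : Field M) (_ : NumberField M),
      (¬ ∃ x : M, x ^ 2 = -1) ∧ (¬ ∃ x : M, x ^ 2 = -3) ∧ ∃ q₀ : ℕ,
      ∀ (p : ℕ) [Fact p.Prime], q₀ ≤ p → p % 4 = 3 → Nonempty (𝓞 M →+* ZMod p) →
        GoodKL K L p := by
  obtain ⟨s, hs⟩ := hc
  obtain ⟨M, hM, hmem⟩ := _root_.W580.FK.real_field L s
  have : NumberField M := { to_charZero := inferInstance, to_finiteDimensional := hM }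
  -- integrality
  have hint : ∀ x : 𝓞 L, IsIntegral ℤ (s x) := fun x =>
    x.isIntegral_coe.map s.toIntAlgHom
  have hintc : ∀ x : 𝓞 L, IsIntegral ℤ ((starRingEnd ℂ) (s x)) := fun x =>
    x.isIntegral_coe.map ((starRingEnd ℂ).comp s).toIntAlgHom
  have hI : IsIntegral ℤ Complex.I := by
    refine ⟨Polynomial.X ^ 2 + 1, by monicity!, ?_⟩
    simp
  let aM : L → M := fun x => ⟨2 * (s x).re, mul_mem (by simp) (hmem x).1⟩
  let bM : L → M := fun x => ⟨2 * (s x).im, mul_mem (by simp) (hmem x).2⟩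
  have haM : ∀ x : 𝓞 L, IsIntegral ℤ (aM x) := by
    intro x
    rw [← isIntegral_algebraMap_iff (B := ℝ) (algebraMap M ℝ).injective,
      ← isIntegral_algebraMap_iff (B := ℂ) (algebraMap ℝ ℂ).injective]
    have h1 : (algebraMap ℝ ℂ) (algebraMap M ℝ (aM x)) = s x + (starRingEnd ℂ) (s x) := by
      rw [Complex.add_conj]; rfl
    rw [h1]
    exact (hint x).add (hintc x)
  have hbM : ∀ x : 𝓞 L, IsIntegral ℤ (bM x) := by
    intro x
    rw [← isIntegral_algebraMap_iff (B := ℝ) (algebraMap M ℝ).injective,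
      ← isIntegral_algebraMap_iff (B := ℂ) (algebraMap ℝ ℂ).injective]
    have h1 : (algebraMap ℝ ℂ) (algebraMap M ℝ (bM x)) =
        -Complex.I * (s x - (starRingEnd ℂ) (s x)) := by
      rw [Complex.sub_conj]
      have : (algebraMap ℝ ℂ) (algebraMap M ℝ (bM x)) = ((2 * (s x).im : ℝ) : ℂ) := rfl
      rw [this]
      linear_combination ((((2 * (s x).im : ℝ)) : ℂ)) * Complex.I_mul_I
    rw [h1]
    exact hI.neg.mul ((hint x).sub (hintc x))
  let a : 𝓞 L → 𝓞 M := fun x => ⟨aM x, haM x⟩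
  let b : 𝓞 L → 𝓞 M := fun x => ⟨bM x, hbM x⟩
  -- the exceptional primes
  have hex : ∃ q₀ : ℕ, ∀ p : ℕ, q₀ ≤ p → p.Prime → ∀ ψ : 𝓞 M →+* ZMod p,
      (∀ x : 𝓞 L, b x = 0) ∨ ∃ x : 𝓞 K, ψ (b (algebraMap (𝓞 K) (𝓞 L) x)) ≠ 0 := by
    rcases hs with hs | ⟨x₀, hx₀⟩
    · refine ⟨0, fun p _ _ ψ => Or.inl fun x => ?_⟩
      ext
      change 2 * (s (x : L)).im = 0
      rw [hs, mul_zero]
    · obtain ⟨N, hN⟩ : ∃ N : ℤ, N ≠ 0 ∧ ∃ z : 𝓞 K, algebraMap (𝓞 K) K z = N • x₀ := by
        have h1 : IsAlgebraic ℤ x₀ := by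
          have : IsAlgebraic ℚ x₀ := Algebra.IsAlgebraic.isAlgebraic x₀
          exact (IsFractionRing.isAlgebraic_iff ℤ ℚ K).2 this
        obtain ⟨N, hN0, hN⟩ := h1.exists_integral_multiple
        exact ⟨N, hN0, ⟨N • x₀, hN⟩, rfl⟩
      obtain ⟨hN0, z, hz⟩ := hN
      have hbz : b (algebraMap (𝓞 K) (𝓞 L) z) ≠ 0 := by
        intro h0
        have h1 : 2 * (s (algebraMap K L (algebraMap (𝓞 K) K z))).im = 0 := by
          have h2 : (((b (algebraMap (𝓞 K) (𝓞 L) z) : 𝓞 M) : M) : ℝ) = (((0 : 𝓞 M) : M) : ℝ) := by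
            rw [h0]
          have h3 : (((0 : 𝓞 M) : M) : ℝ) = 0 := by simp
          rw [h3] at h2
          exact h2
        rw [hz, map_zsmul, map_zsmul] at h1
        have h3 : (N • s (algebraMap K L x₀)).im = N * (s (algebraMap K L x₀)).im := by
          simp
        rw [h3] at h1
        have h4 : (N : ℝ) ≠ 0 := by exact_mod_cast hN0
        have h5 : 2 * ((N : ℝ) * (s (algebraMap K L x₀)).im) ≠ 0 :=
          mul_ne_zero two_ne_zero (mul_ne_zero h4 hx₀)
        exact h5 h1
      obtain ⟨q₀, hq₀⟩ := nonzero_mod _ hbz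
      exact ⟨q₀, fun p hp hpp ψ => Or.inr ⟨z, hq₀ p hp hpp ψ⟩⟩
  obtain ⟨q₀, hq₀⟩ := hex
  refine ⟨M, inferInstance, this, ?_, ?_, q₀, ?_⟩
  · rintro ⟨x, hx⟩
    have : ((x : ℝ)) ^ 2 = -1 := by exact_mod_cast congrArg (fun y : M => (y : ℝ)) hx
    nlinarith [sq_nonneg (x : ℝ)]
  · rintro ⟨x, hx⟩
    have : ((x : ℝ)) ^ 2 = -3 := by
      have h3 : ((-3 : M) : ℝ) = -3 := by push_cast; rfl
      have := congrArg (fun y : M => (y : ℝ)) hx
      rw [← h3]
      exact this
    nlinarith [sq_nonneg (x : ℝ)]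
  intro p hp hpq hp4 ⟨ψ⟩
  classical
  -- the finite field with `p ^ 2` elements
  set F := GaloisField p 2 with hF
  have : Finite F := inferInstance
  have : Fintype F := Fintype.ofFinite F
  have hcF : Nat.card F = p ^ 2 := GaloisField.card p 2 (by norm_num)
  obtain ⟨i, hi⟩ : ∃ i : F, i * i = -1 := by
    have h : IsSquare (-1 : F) := by
      rw [FiniteField.isSquare_neg_one_iff, ← Nat.card_eq_fintype_card, hcF, Nat.pow_mod, hp4]
      norm_num
    obtain ⟨i, hi⟩ := h
    exact ⟨i, hi.symm⟩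
  have h2 : (2 : F) ≠ 0 := by
    have : CharP F p := inferInstance
    intro h
    have h' : ((2 : ℕ) : F) = 0 := by exact_mod_cast h
    rw [CharP.cast_eq_zero_iff F p] at h'
    have h3 := Nat.le_of_dvd (by norm_num) h'
    have h4 := hp.out.two_le
    omega
  set ι : 𝓞 M →+* F := (algebraMap (ZMod p) F).comp ψ with hι
  have e1 : ∀ x y : 𝓞 L, a (x + y) = a x + a y := by
    intro x y
    ext
    change 2 * (s ((x + y : 𝓞 L) : L)).re = 2 * (s x).re + 2 * (s y).re
    simp [mul_add]
  have e2 : ∀ x y : 𝓞 L, b (x + y) = b x + b y := by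
    intro x y
    ext
    change 2 * (s ((x + y : 𝓞 L) : L)).im = 2 * (s x).im + 2 * (s y).im
    simp [mul_add]
  have e3 : ∀ x y : 𝓞 L, 2 * a (x * y) = a x * a y - b x * b y := by
    intro x y
    ext
    change 2 * (2 * (s ((x * y : 𝓞 L) : L)).re) =
      (2 * (s x).re) * (2 * (s y).re) - (2 * (s x).im) * (2 * (s y).im)
    simp
    ring
  have e4 : ∀ x y : 𝓞 L, 2 * b (x * y) = a x * b y + b x * a y := by
    intro x y
    ext
    change 2 * (2 * (s ((x * y : 𝓞 L) : L)).im) =
      (2 * (s x).re) * (2 * (s y).im) + (2 * (s x).im) * (2 * (s y).re)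
    simp
    ring
  have e5 : a 1 = 2 := by
    ext
    change 2 * (s ((1 : 𝓞 L) : L)).re = 2
    simp
  have e6 : b 1 = 0 := by
    ext
    change 2 * (s ((1 : 𝓞 L) : L)).im = 0
    simp
  have e7 : a 0 = 0 := by
    ext
    change 2 * (s ((0 : 𝓞 L) : L)).re = 0
    simp
  have e8 : b 0 = 0 := by
    ext
    change 2 * (s ((0 : 𝓞 L) : L)).im = 0
    simp
  let Φ : 𝓞 L →+* F :=
    { toFun := fun x => (ι (a x) + i * ι (b x)) / 2
      map_one' := by
        have h3 : ι 2 = 2 := map_ofNat ι 2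
        rw [e5, e6, h3, map_zero, mul_zero, add_zero, div_self h2]
      map_zero' := by
        rw [e7, e8]
        simp
      map_add' := by
        intro x y
        rw [e1, e2, map_add, map_add]
        ring
      map_mul' := by
        intro x y
        have h3 := congrArg ι (e3 x y)
        have h4 := congrArg ι (e4 x y)
        simp only [map_mul, map_sub, map_add, map_ofNat] at h3 h4
        have h22 : (2 : F) * 2 ≠ 0 := mul_ne_zero h2 h2
        change (ι (a (x * y)) + i * ι (b (x * y))) / 2 =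
          (ι (a x) + i * ι (b x)) / 2 * ((ι (a y) + i * ι (b y)) / 2)
        rw [div_mul_div_comm, div_eq_div_iff h2 h22]
        linear_combination 2 * h3 + 2 * i * h4 - 2 * ι (b x) * ι (b y) * hi }
  have hΦ : ∀ x, Φ x = (ι (a x) + i * ι (b x)) / 2 := fun _ => rfl
  -- `i` is not in the prime field
  have hiP : ∀ t : ZMod p, algebraMap (ZMod p) F t ≠ i := by
    intro t ht
    have h3 : algebraMap (ZMod p) F (t * t) = algebraMap (ZMod p) F (-1) := by
      rw [map_mul, ht, hi, map_neg, map_one]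
    have h4 : t * t = -1 := (algebraMap (ZMod p) F).injective h3
    have h5 : IsSquare (-1 : ZMod p) := ⟨t, h4.symm⟩
    rw [ZMod.exists_sq_eq_neg_one_iff] at h5
    omega
  set Φ' : 𝓞 K →+* F := Φ.comp (algebraMap (𝓞 K) (𝓞 L)) with hΦ'
  have hdvd : ∀ S : Subring F, Nat.card S ∣ p ^ 2 := fun S => by
    rw [← hcF]
    exact AddSubgroup.card_addSubgroup_dvd_card S.toAddSubgroup
  have hcards : ∀ S : Subring F, Nat.card S = p ∨ Nat.card S = p ^ 2 := by
    intro S
    obtain ⟨j, hj, hj'⟩ := (Nat.dvd_prime_pow hp.out).1 (hdvd S)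
    interval_cases j
    · exfalso
      have : 1 < Nat.card S := Finite.one_lt_card
      rw [hj'] at this
      simp at this
    · left; simpa using hj'
    · right; exact hj'
  -- the prime field
  have hprime : ∀ (S : Subring F) (t : ZMod p), algebraMap (ZMod p) F t ∈ S := by
    intro S t
    obtain ⟨n, rfl⟩ := ZMod.natCast_zmod_surjective t
    rw [map_natCast]
    exact natCast_mem S n
  have hle : Φ.range ≤ Φ'.range := by
    rcases hq₀ p hpq hp.out ψ with h | ⟨x, hx⟩
    · rintro _ ⟨y, rfl⟩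
      rw [hΦ, h y, map_zero, mul_zero, add_zero]
      have h3 : ι (a y) / 2 = algebraMap (ZMod p) F (ψ (a y) / 2) := by
        rw [map_div₀, map_ofNat]
        rfl
      rw [h3]
      exact hprime _ _
    · have h3 : Φ' x ∈ Φ'.range := ⟨x, rfl⟩
      have h4 : Nat.card Φ'.range = p ^ 2 := by
        rcases hcards Φ'.range with h5 | h5
        · exfalso
          -- all the elements are in the prime field
          have h6 : (Set.range (algebraMap (ZMod p) F)) = (Φ'.range : Set F) := by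
            refine Set.eq_of_subset_of_ncard_le ?_ ?_ (Set.toFinite _)
            · rintro _ ⟨t, rfl⟩
              exact hprime _ _
            · rw [← Nat.card_coe_set_eq, ← Nat.card_coe_set_eq,
                Nat.card_range_of_injective (algebraMap (ZMod p) F).injective, Nat.card_zmod]
              exact h5.le
          have h7 : Φ' x ∈ Set.range (algebraMap (ZMod p) F) := by
            rw [h6]
            exact h3
          obtain ⟨t, ht⟩ := h7
          have h8 : Φ' x = (ι (a (algebraMap (𝓞 K) (𝓞 L) x)) +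
            i * ι (b (algebraMap (𝓞 K) (𝓞 L) x))) / 2 := rfl
          have h9 : ι (b (algebraMap (𝓞 K) (𝓞 L) x)) ≠ 0 := by
            rw [hι, RingHom.comp_apply]
            exact (map_ne_zero _).2 hx
          apply hiP ((2 * t - ψ (a (algebraMap (𝓞 K) (𝓞 L) x))) /
            ψ (b (algebraMap (𝓞 K) (𝓞 L) x)))
          rw [map_div₀, map_sub, map_mul, map_ofNat, ht, h8]
          change (2 * ((ι (a (algebraMap (𝓞 K) (𝓞 L) x)) +
            i * ι (b (algebraMap (𝓞 K) (𝓞 L) x))) / 2) - ι (a (algebraMap (𝓞 K) (𝓞 L) x))) /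
            ι (b (algebraMap (𝓞 K) (𝓞 L) x)) = i
          rw [mul_div_cancel₀ _ h2, add_sub_cancel_left, mul_div_cancel_right₀ _ h9]
        · exact h5
      have h5 : (Φ'.range : Set F) = Set.univ := by
        refine Set.eq_of_subset_of_ncard_le (Set.subset_univ _) ?_ (Set.toFinite _)
        rw [Set.ncard_univ, hcF, ← h4]
        exact le_of_eq rfl
      intro y _
      have h6 : y ∈ (Φ'.range : Set F) := by
        rw [h5]
        exact Set.mem_univ y
      exact h6
  let k := Φ.range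
  have : Finite k := inferInstance
  have : Fintype k := Fintype.ofFinite k
  let _ : Field k := Fintype.fieldOfDomain k
  refine ⟨k, inferInstance, inferInstance, ?_, Φ.rangeRestrict, ?_⟩
  · rw [← Nat.card_eq_fintype_card]; exact hcards _
  · rintro ⟨y, hy⟩
    obtain ⟨x, hx⟩ := hle hy
    exact ⟨x, Subtype.ext hx⟩

end Pool.Agent.N89.HA
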